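import Pool.Agent.X145.UC.Walks

/-! Entropy lower bound for the number of non-backtracking walks. -/

set_option autoImplicit false
set_option linter.unusedSectionVars false
set_option linter.unusedVariables false

namespace Pool.Agent.X145.UC

open Finset

variable {V : Type} [Fintype V]

theorem gibbs {ι : Type} (t : Finset ι) (s a : ι → ℝ) (m : ℝ) (hm : 0 < m) (hs : ∀ i ∈ t, 0 < s i)
    (hsum : ∑ i ∈ t, s i = m) (ha : ∀ i ∈ t, 0 < a i) :
    ∑ i ∈ t, s i * (Real.log (a i) + Real.log (m / s i)) ≤ m * Real.log (∑ i ∈ t, a i) := by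
  have h := strictConcaveOn_log_Ioi.concaveOn.le_map_sum (t := t) (w := fun i => s i / m)
    (p := fun i => a i * (m / s i)) (fun i hi => by have := hs i hi; positivity)
    (by rw [← sum_div, hsum]; field_simp)
    (fun i hi => by have := hs i hi; have := ha i hi; exact Set.mem_Ioi.2 (by positivity))
  simp only [smul_eq_mul] at h
  have e1 : ∑ i ∈ t, s i / m * (a i * (m / s i)) = ∑ i ∈ t, a i := by
    apply sum_congr rfl
    intro i hi
    have := hs i hi
    field_simp
  have e2 : ∑ i ∈ t, s i / m * Real.log (a i * (m / s i))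
      = (∑ i ∈ t, s i * (Real.log (a i) + Real.log (m / s i))) / m := by
    rw [sum_div]
    apply sum_congr rfl
    intro i hi
    have h1 := hs i hi
    have h2 := ha i hi
    rw [Real.log_mul h2.ne' (by positivity)]
    ring
  rw [e1, e2, div_le_iff₀ hm] at h
  linarith

open Classical in
/-- neighbours -/
noncomputable def nb (G : SimpleGraph V) (v : V) : Finset V := univ.filter (G.Adj v)

theorem mem_nb (G : SimpleGraph V) (v u : V) : u ∈ nb G v ↔ G.Adj v u := by unfold nb; simp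

variable (G : SimpleGraph V) (m : V → V → ℝ)

/-- total weight at a vertex -/
noncomputable def MM (v : V) : ℝ := ∑ y ∈ nb G v, m v y

/-- joint weight of the transition `u → v → x` -/
noncomputable def SS (u v x : V) : ℝ := m u v + m v x - MM G m v / 2

/-- local entropy -/
noncomputable def hh (v : V) : ℝ := ∑ u ∈ nb G v, ∑ x ∈ nxt G u v, SS G m u v x * Real.log (m u v / SS G m u v x)

/-- weighted logarithmic count -/
noncomputable def EE (ℓ : ℕ) : ℝ := ∑ v, ∑ u ∈ nb G v, m u v * Real.log (cnt G ℓ u v)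

structure Good : Prop where
  symm : ∀ u v, m u v = m v u
  pos : ∀ u v, G.Adj u v → 0 < m u v
  spos : ∀ u v x, G.Adj u v → x ∈ nxt G u v → 0 < SS G m u v x
  row : ∀ u v, G.Adj u v → ∑ x ∈ nxt G u v, SS G m u v x = m u v

variable {G m}

theorem swap_nb (f : V → V → ℝ) : ∑ v, ∑ u ∈ nb G v, f u v = ∑ u, ∑ v ∈ nb G u, f u v := by
  apply sum_comm'
  intro x y
  simp only [mem_univ, true_and, and_true, mem_nb]
  exact ⟨fun h => h.symm, fun h => h.symm⟩

theorem nxt_ne (h : Good G m) (u v : V) (huv : G.Adj u v) : (nxt G u v).Nonempty := by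
  by_contra hne
  rw [not_nonempty_iff_eq_empty] at hne
  have h1 := h.row u v huv
  rw [hne, sum_empty] at h1
  have := h.pos u v huv
  linarith

theorem EE_zero : EE G m 0 = 0 := by
  unfold EE
  apply sum_eq_zero
  intro v _
  apply sum_eq_zero
  intro u hu
  rw [cnt_zero G u v ((mem_nb _ _ _).1 hu).symm]
  simp

theorem EE_succ (h : Good G m) (ℓ : ℕ) : EE G m ℓ + ∑ v, hh G m v ≤ EE G m (ℓ + 1) := by
  have hpos : ∀ ℓ u v, G.Adj u v → 1 ≤ cnt G ℓ u v := fun ℓ => cnt_pos G (nxt_ne h) ℓ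
  have h1 : ∀ v, ∀ u ∈ nb G v, ∑ x ∈ nxt G u v, SS G m u v x * (Real.log (cnt G ℓ v x) + Real.log (m u v / SS G m u v x))
      ≤ m u v * Real.log (cnt G (ℓ + 1) u v) := by
    intro v u hu
    have huv := ((mem_nb _ _ _).1 hu).symm
    have hc : ∀ x ∈ nxt G u v, (0:ℝ) < cnt G ℓ v x := by
      intro x hx
      exact_mod_cast hpos ℓ v x ((mem_nxt _ _ _ _).1 hx).1
    have g := gibbs (nxt G u v) (fun x => SS G m u v x) (fun x => (cnt G ℓ v x : ℝ)) (m u v) (h.pos u v huv)
      (fun x hx => h.spos u v x huv hx) (h.row u v huv) hc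
    refine g.trans ?_
    apply mul_le_mul_of_nonneg_left _ (h.pos u v huv).le
    apply Real.log_le_log
    · exact sum_pos hc (nxt_ne h u v huv)
    · exact_mod_cast cnt_succ_ge G ℓ u v huv
  have h2 : ∑ v, ∑ u ∈ nb G v, ∑ x ∈ nxt G u v, SS G m u v x * (Real.log (cnt G ℓ v x) + Real.log (m u v / SS G m u v x))
      ≤ EE G m (ℓ + 1) := sum_le_sum (fun v _ => sum_le_sum (fun u hu => h1 v u hu))
  refine le_trans (le_of_eq ?_) h2
  have h3 : ∑ v, ∑ u ∈ nb G v, ∑ x ∈ nxt G u v, SS G m u v x * (Real.log (cnt G ℓ v x) + Real.log (m u v / SS G m u v x))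
      = ∑ v, ∑ u ∈ nb G v, ∑ x ∈ nxt G u v, SS G m u v x * Real.log (cnt G ℓ v x) + ∑ v, hh G m v := by
    unfold hh
    rw [← sum_add_distrib]
    apply sum_congr rfl
    intro v _
    rw [← sum_add_distrib]
    apply sum_congr rfl
    intro u _
    rw [← sum_add_distrib]
    apply sum_congr rfl
    intro x _
    ring
  rw [h3]
  congr 1
  unfold EE
  rw [swap_nb (fun u v => m u v * Real.log (cnt G ℓ u v))]
  apply sum_congr rfl
  intro v _
  have h4 : ∑ u ∈ nb G v, ∑ x ∈ nxt G u v, SS G m u v x * Real.log (cnt G ℓ v x)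
      = ∑ x ∈ nb G v, ∑ u ∈ nxt G x v, SS G m u v x * Real.log (cnt G ℓ v x) := by
    apply sum_comm'
    intro x y
    simp only [mem_nb, mem_nxt]
    constructor
    · rintro ⟨a, b, c⟩; exact ⟨⟨a, c.symm⟩, b⟩
    · rintro ⟨⟨a, c⟩, b⟩; exact ⟨a, b, c.symm⟩
  rw [h4]
  apply sum_congr rfl
  intro x hx
  rw [← sum_mul]
  congr 1
  have hx' := (mem_nb _ _ _).1 hx
  rw [h.symm v x, ← h.row x v hx'.symm]
  apply sum_congr rfl
  intro u _
  unfold SS
  rw [h.symm u v, h.symm v x]; ring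

theorem EE_ge (h : Good G m) (ℓ : ℕ) : ℓ * ∑ v, hh G m v ≤ EE G m ℓ := by
  induction ℓ with
  | zero => rw [EE_zero]; simp
  | succ ℓ ih =>
    have := EE_succ h ℓ
    push_cast
    linarith

theorem EE_le (h : Good G m) (ℓ : ℕ) : EE G m ℓ ≤ (∑ v, MM G m v) * Real.log (num G (ℓ + 1)) := by
  have e : ∑ v, MM G m v = ∑ v, ∑ u ∈ nb G v, m u v := by
    unfold MM
    apply sum_congr rfl
    intro v _
    apply sum_congr rfl
    intro u _
    exact h.symm v u
  rw [e, sum_mul]
  unfold EE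
  apply sum_le_sum
  intro v _
  rw [sum_mul]
  apply sum_le_sum
  intro u hu
  have huv := ((mem_nb _ _ _).1 hu).symm
  have h1 := cnt_pos G (nxt_ne h) ℓ u v huv
  apply mul_le_mul_of_nonneg_left _ (h.pos u v huv).le
  apply Real.log_le_log (by exact_mod_cast h1)
  exact_mod_cast cnt_le_num G ℓ u v

/-- entropy lower bound -/
theorem log_num_ge (h : Good G m) (q : ℝ) (hZ : 0 < ∑ v, MM G m v) (hq : q * ∑ v, MM G m v ≤ ∑ v, hh G m v) (ℓ : ℕ) :
    ℓ * q ≤ Real.log (num G (ℓ + 1)) := by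
  have h1 := EE_ge h ℓ
  have h2 := EE_le h ℓ
  have h3 : (ℓ:ℝ) * (q * ∑ v, MM G m v) ≤ ℓ * ∑ v, hh G m v := mul_le_mul_of_nonneg_left hq (by positivity)
  have h4 : (ℓ * q) * (∑ v, MM G m v) ≤ Real.log (num G (ℓ + 1)) * (∑ v, MM G m v) := by nlinarith
  exact le_of_mul_le_mul_right h4 hZ

end Pool.Agent.X145.UC
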