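import Pool.Agent.X145.UC.Main

/-! The graph `K₄⁻` and the final comparison. -/

set_option autoImplicit false
set_option linter.unusedVariables false
set_option linter.unusedSectionVars false

namespace Pool.Agent.X145.UC

open Finset Filter Topology

/-- `K₄` with one edge deleted -/
def K4minus : SimpleGraph (Fin 4) := (⊤ : SimpleGraph (Fin 4)).deleteEdges {s(2, 3)}

theorem K4_adj (u v : Fin 4) : K4minus.Adj u v ↔ (u ≠ v ∧ ¬ (u = 2 ∧ v = 3) ∧ ¬ (u = 3 ∧ v = 2)) := by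
  unfold K4minus
  simp only [SimpleGraph.deleteEdges_adj, SimpleGraph.top_adj, Set.mem_singleton_iff, Sym2.eq_iff]
  tauto

/-- the class `𝒢_{2,3}` -/
structure InClass {V : Type} [Fintype V] (G : SimpleGraph V) : Prop where
  conn : G.Connected
  deg : ∀ v, deg G v = 2 ∨ deg G v = 3
  bal : (univ.filter (fun v => UC.deg G v = 2)).card = (univ.filter (fun v => UC.deg G v = 3)).card

theorem nb_K4 (v : Fin 4) : nb K4minus v = univ.filter (fun u : Fin 4 => v ≠ u ∧ ¬ (v = 2 ∧ u = 3) ∧ ¬ (v = 3 ∧ u = 2)) := by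
  ext u
  rw [mem_nb, K4_adj, mem_filter]
  simp

theorem deg_K4 (v : Fin 4) : deg K4minus v = if v = 0 ∨ v = 1 then 3 else 2 := by
  unfold deg
  rw [nb_K4]
  revert v
  decide

theorem K4_inClass : InClass K4minus := by
  refine ⟨?_, ?_, ?_⟩
  · have hreach : ∀ v, K4minus.Reachable 0 v := by
      intro v
      by_cases h : v = 0
      · rw [h]
      · apply SimpleGraph.Adj.reachable
        rw [K4_adj]
        revert h
        revert v
        decide
    have : K4minus.Preconnected := fun u v => (hreach u).symm.trans (hreach v)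
    exact ⟨this⟩
  · intro v
    rw [deg_K4]
    split_ifs
    · exact Or.inr rfl
    · exact Or.inl rfl
  · simp only [deg_K4]
    decide

/-- eigenvector -/
noncomputable def hv (r : ℝ) (u v : Fin 4) : ℝ :=
  if u = 0 ∨ u = 1 then (if v = 0 ∨ v = 1 then 2 / r else 1) else r

theorem hv_bounds (r : ℝ) (h1 : 1 < r) (hr : r ^ 3 = r + 2) (u v : Fin 4) : 1 ≤ hv r u v ∧ hv r u v ≤ 2 := by
  obtain ⟨ha, hb⟩ := root_bounds r h1 hr
  have h0 : 0 < r := by linarith
  unfold hv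
  split_ifs
  · constructor
    · rw [le_div_iff₀ h0]; linarith
    · rw [div_le_iff₀ h0]; linarith
  · constructor <;> norm_num
  · constructor <;> linarith

theorem nxt_K4 (u v : Fin 4) : nxt K4minus u v
    = univ.filter (fun x : Fin 4 => (v ≠ x ∧ ¬ (v = 2 ∧ x = 3) ∧ ¬ (v = 3 ∧ x = 2)) ∧ u ≠ x) := by
  ext x
  rw [mem_nxt, K4_adj, mem_filter]
  simp

theorem hv_step (r : ℝ) (h1 : 1 < r) (hr : r ^ 3 = r + 2) (u v : Fin 4) (h : K4minus.Adj u v) :
    ∑ x ∈ nxt K4minus u v, hv r v x ≤ r * hv r u v := by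
  have h0 : r ≠ 0 := by linarith
  have e1 : r * (2 / r) = 2 := by field_simp
  have e2 : 2 / r + 1 = r * r := by
    field_simp
    nlinarith
  rw [K4_adj] at h
  rw [nxt_K4, sum_filter, Fin.sum_univ_four]
  fin_cases u <;> fin_cases v <;> simp [hv] at h ⊢ <;> first | linarith | nlinarith [e1, e2]

theorem cnt_K4 (r : ℝ) (h1 : 1 < r) (hr : r ^ 3 = r + 2) (ℓ : ℕ) :
    ∀ u v, (cnt K4minus ℓ u v : ℝ) ≤ hv r u v * r ^ ℓ := by
  have h0 : 0 < r := by linarith
  induction ℓ with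
  | zero =>
    intro u v
    have := hv_bounds r h1 hr u v
    by_cases h : K4minus.Adj u v
    · rw [cnt_zero _ _ _ h]; simp; exact this.1
    · rw [cnt_nonadj _ _ _ _ h]; simp; linarith [this.1]
  | succ ℓ ih =>
    intro u v
    have hb := hv_bounds r h1 hr u v
    by_cases h : K4minus.Adj u v
    · calc (cnt K4minus (ℓ + 1) u v : ℝ) ≤ ∑ x ∈ nxt K4minus u v, (cnt K4minus ℓ v x : ℝ) := by
            exact_mod_cast cnt_succ_le K4minus ℓ u v
        _ ≤ ∑ x ∈ nxt K4minus u v, hv r v x * r ^ ℓ := sum_le_sum (fun x _ => ih v x)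
        _ = (∑ x ∈ nxt K4minus u v, hv r v x) * r ^ ℓ := by rw [sum_mul]
        _ ≤ (r * hv r u v) * r ^ ℓ := mul_le_mul_of_nonneg_right (hv_step r h1 hr u v h) (by positivity)
        _ = hv r u v * r ^ (ℓ + 1) := by ring
    · rw [cnt_nonadj _ _ _ _ h]
      have : 0 ≤ hv r u v := by linarith [hb.1]
      push_cast
      positivity

theorem num_K4 (r : ℝ) (h1 : 1 < r) (hr : r ^ 3 = r + 2) (ℓ : ℕ) : (num K4minus (ℓ + 1) : ℝ) ≤ 32 * r ^ ℓ := by
  have h0 : 0 < r := by linarith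
  calc (num K4minus (ℓ + 1) : ℝ) ≤ ∑ u, ∑ v, (cnt K4minus ℓ u v : ℝ) := by exact_mod_cast num_le_sum K4minus ℓ
    _ ≤ ∑ _u : Fin 4, ∑ _v : Fin 4, 2 * r ^ ℓ := by
        apply sum_le_sum; intro u _
        apply sum_le_sum; intro v _
        exact (cnt_K4 r h1 hr ℓ u v).trans (mul_le_mul_of_nonneg_right (hv_bounds r h1 hr u v).2 (by positivity))
    _ = 32 * r ^ ℓ := by simp; ring

section
variable {V : Type} [Fintype V] {G : SimpleGraph V}

theorem exists_root : ∃ r : ℝ, 1 < r ∧ r ^ 3 = r + 2 := by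
  have hc : ContinuousOn (fun x : ℝ => x ^ 3 - x) (Set.Icc 1 2) := by fun_prop
  have h := intermediate_value_Icc (show (1:ℝ) ≤ 2 by norm_num) hc
  have h2 : (2:ℝ) ∈ Set.Icc ((fun x : ℝ => x ^ 3 - x) 1) ((fun x : ℝ => x ^ 3 - x) 2) := by norm_num
  obtain ⟨r, hr, he⟩ := h h2
  simp only at he
  refine ⟨r, ?_, by linarith⟩
  rcases hr.1.lt_or_eq with h3 | h3
  · exact h3
  · rw [← h3] at he; norm_num at he

theorem exists_adj (h : InClass G) : ∃ u v, G.Adj u v := by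
  obtain ⟨v⟩ := h.conn.nonempty
  have : 0 < (nb G v).card := by
    rcases h.deg v with h1 | h1
    · have : (nb G v).card = 2 := h1
      omega
    · have : (nb G v).card = 3 := h1
      omega
  obtain ⟨u, hu⟩ := card_pos.1 this
  exact ⟨v, u, (mem_nb _ _ _).1 hu⟩

theorem num_pos (h : InClass G) (ℓ : ℕ) : 1 ≤ num G ℓ := by
  obtain ⟨r, h1, hr⟩ := exists_root
  obtain ⟨u, v, huv⟩ := exists_adj h
  rcases ℓ with _ | ℓ
  · unfold num
    apply card_pos.2
    refine ⟨fun _ => u, (mem_walks _ _ _).2 ⟨fun i hi => ?_, fun i hi => ?_⟩⟩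
    · omega
    · omega
  · exact (cnt_pos G (nxt_ne (good h.deg h1 hr)) ℓ u v huv).trans (cnt_le_num G ℓ u v)

theorem lower (h : InClass G) (r : ℝ) (h1 : 1 < r) (hr : r ^ 3 = r + 2) (ℓ : ℕ) :
    ℓ * Real.log r ≤ Real.log (num G (ℓ + 1)) := by
  apply log_num_ge (good h.deg h1 hr) (Real.log r) _ (total h.deg h1 hr h.bal)
  obtain ⟨u, v, huv⟩ := exists_adj h
  have hnn : ∀ v, 0 ≤ MM G (wt G r) v := fun v => sum_nonneg (fun y _ => by linarith [(wt_ge (G := G) h1 hr v y).1])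
  apply sum_pos' (fun v _ => hnn v)
  refine ⟨u, mem_univ _, ?_⟩
  unfold MM
  apply sum_pos (fun y _ => by linarith [(wt_ge (G := G) h1 hr u y).1])
  exact ⟨v, (mem_nb _ _ _).2 huv⟩

theorem tend (h : InClass G) : Tendsto (fun ℓ : ℕ => Real.exp (Real.log (num G (ℓ + 1)) / ((ℓ:ℝ) + 1))) atTop (𝓝 (rho G)) := by
  have h1 := (rho_tendsto G (num_pos h)).comp (tendsto_add_atTop_nat 1)
  refine h1.congr (fun ℓ => ?_)
  have hn : (0:ℝ) < num G (ℓ + 1) := by exact_mod_cast num_pos h (ℓ + 1)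
  simp only [Function.comp]
  rw [Real.rpow_def_of_pos hn]
  congr 1
  push_cast
  ring

theorem ratio_tendsto : Tendsto (fun ℓ : ℕ => (ℓ:ℝ) / ((ℓ:ℝ) + 1)) atTop (𝓝 1) := tendsto_natCast_div_add_atTop 1

theorem rho_ge (h : InClass G) (r : ℝ) (h1 : 1 < r) (hr : r ^ 3 = r + 2) : r ≤ rho G := by
  have h0 : 0 < r := by linarith
  have h2 : Tendsto (fun ℓ : ℕ => Real.exp ((ℓ:ℝ) / ((ℓ:ℝ) + 1) * Real.log r)) atTop (𝓝 (Real.exp (1 * Real.log r))) :=
    (Real.continuous_exp.tendsto _).comp (ratio_tendsto.mul_const _)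
  rw [one_mul, Real.exp_log h0] at h2
  refine le_of_tendsto_of_tendsto' h2 (tend h) (fun ℓ => ?_)
  apply Real.exp_le_exp.2
  have := lower h r h1 hr ℓ
  rw [div_mul_eq_mul_div]
  exact div_le_div_of_nonneg_right this (by positivity)

theorem rho_K4 (r : ℝ) (h1 : 1 < r) (hr : r ^ 3 = r + 2) : rho K4minus = r := by
  apply le_antisymm _ (rho_ge K4_inClass r h1 hr)
  have h0 : 0 < r := by linarith
  have h3 : Tendsto (fun ℓ : ℕ => Real.log 32 / ((ℓ:ℝ) + 1)) atTop (𝓝 0) := by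
    have : Tendsto (fun ℓ : ℕ => (ℓ:ℝ) + 1) atTop atTop :=
      tendsto_atTop_add_const_right _ _ tendsto_natCast_atTop_atTop
    exact this.const_div_atTop _
  have h2 : Tendsto (fun ℓ : ℕ => Real.exp (Real.log 32 / ((ℓ:ℝ) + 1) + (ℓ:ℝ) / ((ℓ:ℝ) + 1) * Real.log r)) atTop
      (𝓝 (Real.exp (0 + 1 * Real.log r))) :=
    (Real.continuous_exp.tendsto _).comp (h3.add (ratio_tendsto.mul_const _))
  rw [one_mul, zero_add, Real.exp_log h0] at h2
  refine le_of_tendsto_of_tendsto' (tend K4_inClass) h2 (fun ℓ => ?_)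
  apply Real.exp_le_exp.2
  have hn : (0:ℝ) < num K4minus (ℓ + 1) := by exact_mod_cast num_pos K4_inClass (ℓ + 1)
  have h4 := Real.log_le_log hn (num_K4 r h1 hr ℓ)
  rw [Real.log_mul (by norm_num) (by positivity), Real.log_pow] at h4
  have h5 := div_le_div_of_nonneg_right h4 (show (0:ℝ) ≤ (ℓ:ℝ) + 1 by positivity)
  refine h5.trans (le_of_eq ?_)
  ring

end

end Pool.Agent.X145.UC
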