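import Mathlib

/-! Local inequalities. -/

set_option autoImplicit false
set_option linter.unusedVariables false

namespace Pool.Agent.X145.UC

open Finset

theorem root_bounds (r : ℝ) (h1 : 1 < r) (hr : r ^ 3 = r + 2) : 1.5213 < r ∧ r < 1.5214 := by
  constructor
  · by_contra h
    push Not at h
    nlinarith [mul_nonneg (sub_nonneg.2 h) (sub_nonneg.2 h1.le), sq_nonneg (r - 1), sq_nonneg (r + 1.5213)]
  · by_contra h
    push Not at h
    nlinarith [mul_nonneg (sub_nonneg.2 h) (sub_nonneg.2 h1.le), sq_nonneg (r - 1), sq_nonneg (r + 1.5214)]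

theorem log_root (r : ℝ) (h1 : 1 < r) (hr : r ^ 3 = r + 2) : Real.log r ≤ 0.42009 := by
  obtain ⟨h2, h3⟩ := root_bounds r h1 hr
  have h4 : r ^ 33 ≤ (2:ℝ) ^ 20 := by
    calc r ^ 33 ≤ (1.5214:ℝ) ^ 33 := pow_le_pow_left₀ (by linarith) h3.le 33
      _ ≤ 2 ^ 20 := by norm_num
  have h5 := Real.log_le_log (by positivity) h4
  rw [Real.log_pow, Real.log_pow] at h5
  have h6 := Real.log_two_lt_d9
  push_cast at h5
  linarith

theorem log_root_pos (r : ℝ) (h1 : 1 < r) : 0 < Real.log r := Real.log_pos h1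

/-- `α = 4 / r³` -/
noncomputable def alpha (r : ℝ) : ℝ := 4 / r ^ 3

theorem alpha_bounds (r : ℝ) (h1 : 1 < r) (hr : r ^ 3 = r + 2) : 1.1356 < alpha r ∧ alpha r < 1.1362 := by
  obtain ⟨h2, h3⟩ := root_bounds r h1 hr
  unfold alpha
  rw [hr]
  constructor
  · rw [lt_div_iff₀ (by linarith)]; linarith
  · rw [div_lt_iff₀ (by linarith)]; linarith

theorem alpha_rel (r : ℝ) (h1 : 1 < r) (hr : r ^ 3 = r + 2) : 1 - alpha r / 2 = 1 / r ^ 2 := by
  unfold alpha
  have h0 : r ≠ 0 := by linarith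
  field_simp
  nlinarith

/-- binary piece -/
noncomputable def gg (A S T : ℝ) : ℝ := S * Real.log (A / S) + T * Real.log (A / T)

theorem gg_half (A : ℝ) (hA : 0 < A) : gg A (A / 2) (A / 2) = A * Real.log 2 := by
  unfold gg
  have : A / (A / 2) = 2 := by field_simp
  rw [this]; ring

theorem log_one_sub (t : ℝ) (h0 : 0 ≤ t) (h1 : t < 1) : Real.log (1 - t) ≤ -t - t ^ 2 / 2 := by
  have h := Real.hasSum_pow_div_log_of_abs_lt_one (x := t) (by rw [abs_of_nonneg h0]; exact h1)
  have h2 := sum_le_hasSum (range 2) (fun i _ => by positivity) h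
  rw [sum_range_succ, sum_range_succ, sum_range_zero] at h2
  norm_num at h2
  linarith

theorem log_one_add (t : ℝ) (h0 : 0 ≤ t) (h1 : t < 1) : Real.log (1 + t) ≤ t - t ^ 2 / 2 + t ^ 3 / 3 + t ^ 4 / (1 - t) := by
  have h := Real.abs_log_sub_add_sum_range_le (x := -t) (by rw [abs_neg, abs_of_nonneg h0]; exact h1) 3
  rw [abs_neg, abs_of_nonneg h0, sub_neg_eq_add] at h
  have h2 := (abs_le.1 h).2
  rw [sum_range_succ, sum_range_succ, sum_range_succ, sum_range_zero] at h2
  norm_num at h2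
  have e : t ^ 4 / (1 - t) = t ^ 4 / (1 - t) := rfl
  nlinarith [h2]

theorem gg_lower (A S T t : ℝ) (hA : 0 < A) (hS : S = A * (1 + t) / 2) (hT : T = A * (1 - t) / 2)
    (h0 : 0 ≤ t) (h1 : t < 1) :
    A * Real.log 2 - A / 2 * ((1 + t) * (t - t ^ 2 / 2 + t ^ 3 / 3 + t ^ 4 / (1 - t)) + (1 - t) * (-t - t ^ 2 / 2)) ≤ gg A S T := by
  have e1 : Real.log (A / S) = Real.log 2 - Real.log (1 + t) := by
    rw [← Real.log_div (by norm_num) (by linarith), hS]
    congr 1
    field_simp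
  have e2 : Real.log (A / T) = Real.log 2 - Real.log (1 - t) := by
    rw [← Real.log_div (by norm_num) (by linarith), hT]
    congr 1
    have : (1 - t) ≠ 0 := by linarith
    field_simp
  unfold gg
  rw [e1, e2, hS, hT]
  have h2 := mul_le_mul_of_nonneg_left (log_one_add t h0 h1) (show 0 ≤ A / 2 * (1 + t) by positivity)
  have h3 := mul_le_mul_of_nonneg_left (log_one_sub t h0 h1) (show 0 ≤ A / 2 * (1 - t) by
    have : 0 ≤ 1 - t := by linarith
    positivity)
  nlinarith [h2, h3]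

/-- local entropy as a function of the three weights -/
noncomputable def ff (A B C : ℝ) : ℝ :=
  gg A ((A + B - C) / 2) ((A + C - B) / 2) + gg B ((B + A - C) / 2) ((B + C - A) / 2)
    + gg C ((C + A - B) / 2) ((C + B - A) / 2)

theorem gg_comm (A S T : ℝ) : gg A S T = gg A T S := by unfold gg; ring

theorem ff_swap (A B C : ℝ) : ff A B C = ff B A C := by
  unfold ff
  rw [gg_comm C ((C + A - B) / 2)]
  ring

theorem ff_swap' (A B C : ℝ) : ff A B C = ff A C B := by
  unfold ff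
  rw [gg_comm A ((A + B - C) / 2)]
  ring

section
variable (r : ℝ) (h1 : 1 < r) (hr : r ^ 3 = r + 2)
include h1 hr

theorem F0 : Real.log r * (3 * alpha r) + 2 * 0.448 ≤ ff (alpha r) (alpha r) (alpha r) := by
  obtain ⟨ha, hb⟩ := alpha_bounds r h1 hr
  have hq := log_root r h1 hr
  have e : ff (alpha r) (alpha r) (alpha r) = 3 * (alpha r * Real.log 2) := by
    unfold ff
    have : (alpha r + alpha r - alpha r) / 2 = alpha r / 2 := by ring
    rw [this, gg_half _ (by linarith)]; ring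
  rw [e]
  have hl := Real.log_two_gt_d9
  nlinarith

theorem F3 : Real.log r * 3 + 2 * 0.448 - (0.448 - Real.log r) * 3 ≤ ff 1 1 1 := by
  have hq := log_root r h1 hr
  have e : ff 1 1 1 = 3 * Real.log 2 := by
    unfold ff
    have : ((1:ℝ) + 1 - 1) / 2 = 1 / 2 := by ring
    rw [this, gg_half _ (by norm_num)]; ring
  rw [e]
  have hl := Real.log_two_gt_d9
  linarith

theorem F2 : Real.log r * (alpha r + 2) + 2 * 0.448 - (0.448 - Real.log r) * 2 ≤ ff (alpha r) 1 1 := by
  obtain ⟨ha, hb⟩ := alpha_bounds r h1 hr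
  have h0 : (0:ℝ) < r := by linarith
  have hrel := alpha_rel r h1 hr
  have l1 : Real.log (alpha r / 2) = Real.log 2 - 3 * Real.log r := by
    unfold alpha
    have : 4 / r ^ 3 / 2 = 2 / r ^ 3 := by ring
    rw [this, Real.log_div (by norm_num) (by positivity), Real.log_pow]
    push_cast; ring
  have l2 : Real.log (1 - alpha r / 2) = - (2 * Real.log r) := by
    rw [hrel, Real.log_div (by norm_num) (by positivity), Real.log_one, Real.log_pow]
    push_cast; ring
  have e : ff (alpha r) 1 1 = Real.log r * (alpha r + 4) := by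
    unfold ff
    have a1 : (alpha r + 1 - 1) / 2 = alpha r / 2 := by ring
    have a2 : (1 + alpha r - 1) / 2 = alpha r / 2 := by ring
    have a3 : (1 + 1 - alpha r) / 2 = 1 - alpha r / 2 := by ring
    rw [a1, a2, a3, gg_half _ (by linarith)]
    unfold gg
    rw [one_div, one_div, Real.log_inv, Real.log_inv, l1, l2]
    ring
  rw [e]
  linarith

theorem F1 : Real.log r * (2 * alpha r + 1) + 2 * 0.448 - (0.448 - Real.log r) * 1 ≤ ff (alpha r) (alpha r) 1 := by
  obtain ⟨ha, hb⟩ := alpha_bounds r h1 hr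
  have hq := log_root r h1 hr
  have hl := Real.log_two_gt_d9
  set a := alpha r with haa
  have ha0 : 0 < a := by linarith
  set t : ℝ := (a - 1) / a with ht
  have ht1 : t ≤ 0.12 := by
    rw [ht, div_le_iff₀ ha0]; linarith
  have ht0 : 0 ≤ t := by
    rw [ht]; apply div_nonneg <;> linarith
  have hat : a * t = a - 1 := by rw [ht]; field_simp
  have g1 := gg_lower a ((a + a - 1) / 2) ((a + 1 - a) / 2) t ha0 (by linarith) (by linarith) ht0 (by linarith)
  have e : ff a a 1 = 2 * gg a ((a + a - 1) / 2) ((a + 1 - a) / 2) + Real.log 2 := by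
    unfold ff
    have : ((1:ℝ) + a - a) / 2 = 1 / 2 := by ring
    rw [this, gg_half _ (by norm_num)]; ring
  rw [e]
  have hsmall : (1 + t) * (t - t ^ 2 / 2 + t ^ 3 / 3 + t ^ 4 / (1 - t)) + (1 - t) * (-t - t ^ 2 / 2) ≤ 0.0154 := by
    have h4 : t ^ 4 / (1 - t) ≤ 0.00024 := by
      rw [div_le_iff₀ (by linarith)]
      have : t ^ 4 ≤ 0.12 ^ 4 := pow_le_pow_left₀ ht0 ht1 4
      norm_num at this ⊢
      nlinarith
    have h2 : t ^ 2 ≤ 0.12 ^ 2 := pow_le_pow_left₀ ht0 ht1 2
    have h3 : t ^ 3 ≤ 0.12 ^ 3 := pow_le_pow_left₀ ht0 ht1 3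
    have h44 : t ^ 4 ≤ 0.12 ^ 4 := pow_le_pow_left₀ ht0 ht1 4
    have h5 : (1 + t) * (t - t ^ 2 / 2 + t ^ 3 / 3 + t ^ 4 / (1 - t)) + (1 - t) * (-t - t ^ 2 / 2)
        = t ^ 2 + t ^ 3 / 3 + t ^ 4 / 3 + (1 + t) * (t ^ 4 / (1 - t)) := by ring
    rw [h5]
    have h6 : (1 + t) * (t ^ 4 / (1 - t)) ≤ 1.12 * 0.00024 := by
      apply mul_le_mul (by linarith) h4 _ (by norm_num)
      apply div_nonneg (by positivity) (by linarith)
    norm_num at h2 h3 h44 h6 ⊢
    linarith
  have h7 := mul_le_mul_of_nonneg_left hsmall (show 0 ≤ a / 2 by positivity)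
  have hq0 := log_root_pos r h1
  nlinarith

end

end Pool.Agent.X145.UC
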