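import Pool.Agent.X145.UC.Entropy
import Pool.Agent.X145.UC.Numeric

/-! The lower bound for graphs with degrees two and three in equal numbers. -/

set_option autoImplicit false
set_option linter.unusedVariables false
set_option linter.unusedSectionVars false

namespace Pool.Agent.X145.UC

open Finset Filter Topology

variable {V : Type} [Fintype V]

/-- the degree -/
noncomputable def deg (G : SimpleGraph V) (v : V) : ℕ := (nb G v).card

variable (G : SimpleGraph V) (r : ℝ)

open Classical in
/-- weight of an edge: `α` between two cubic vertices, `1` otherwise -/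
noncomputable def wt (u v : V) : ℝ := if deg G u = 3 ∧ deg G v = 3 then alpha r else 1

variable {G r}

theorem wt_symm (u v : V) : wt G r u v = wt G r v u := by
  unfold wt
  by_cases h : deg G u = 3 ∧ deg G v = 3
  · rw [if_pos h, if_pos ⟨h.2, h.1⟩]
  · rw [if_neg h, if_neg (fun h' => h ⟨h'.2, h'.1⟩)]

theorem wt_ge (h1 : 1 < r) (hr : r ^ 3 = r + 2) (u v : V) : 1 ≤ wt G r u v ∧ wt G r u v ≤ alpha r := by
  obtain ⟨ha, hb⟩ := alpha_bounds r h1 hr
  unfold wt
  split_ifs <;> constructor <;> linarith

theorem wt_two (u v : V) (h : deg G v = 2) : wt G r u v = 1 ∧ wt G r v u = 1 := by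
  constructor
  · unfold wt; rw [if_neg]; rintro ⟨_, h'⟩; omega
  · unfold wt; rw [if_neg]; rintro ⟨h', _⟩; omega

theorem MM_two (v : V) (h : deg G v = 2) : MM G (wt G r) v = 2 := by
  unfold MM
  rw [sum_congr rfl (fun y _ => (wt_two y v h).2)]
  simp only [sum_const, nsmul_eq_mul, mul_one]
  have : (nb G v).card = 2 := h
  rw [this]; norm_num

theorem nxt_eq [DecidableEq V] (u v : V) : nxt G u v = (nb G v).erase u := by
  ext x
  rw [mem_nxt, mem_erase, mem_nb]
  exact ⟨fun h => ⟨h.2.symm, h.1⟩, fun h => ⟨h.2, h.1.symm⟩⟩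

theorem good (hdeg : ∀ v, deg G v = 2 ∨ deg G v = 3) (h1 : 1 < r) (hr : r ^ 3 = r + 2) : Good G (wt G r) := by
  classical
  obtain ⟨ha, hb⟩ := alpha_bounds r h1 hr
  refine ⟨wt_symm, fun u v _ => by linarith [(wt_ge (G := G) h1 hr u v).1], ?_, ?_⟩
  · intro u v x huv hx
    obtain ⟨hvx, hux⟩ := (mem_nxt _ _ _ _).1 hx
    rcases hdeg v with hv | hv
    · unfold SS
      rw [MM_two v hv, (wt_two u v hv).1, (wt_two x v hv).2]; norm_num
    · unfold SS
      have hu : u ∈ nb G v := (mem_nb _ _ _).2 huv.symm
      have hxm : x ∈ (nb G v).erase u := by rw [← nxt_eq]; exact hx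
      have e : MM G (wt G r) v = wt G r v u + (wt G r v x + ∑ y ∈ ((nb G v).erase u).erase x, wt G r v y) := by
        unfold MM
        rw [← add_sum_erase _ _ hu, ← add_sum_erase _ _ hxm]
      have hc : (((nb G v).erase u).erase x).card = 1 := by
        rw [card_erase_of_mem hxm, card_erase_of_mem hu]
        have : (nb G v).card = 3 := hv
        omega
      have hle : ∑ y ∈ ((nb G v).erase u).erase x, wt G r v y ≤ alpha r := by
        calc _ ≤ ∑ _y ∈ ((nb G v).erase u).erase x, alpha r := sum_le_sum (fun y _ => (wt_ge h1 hr v y).2)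
          _ = alpha r := by rw [sum_const, hc, one_smul]
      have h2 := (wt_ge (G := G) h1 hr u v).1
      have h3 := (wt_ge (G := G) h1 hr v x).1
      rw [e, wt_symm v u]
      linarith
  · intro u v huv
    have hu : u ∈ nb G v := (mem_nb _ _ _).2 huv.symm
    have e : MM G (wt G r) v = wt G r v u + ∑ y ∈ (nb G v).erase u, wt G r v y := by
      unfold MM
      rw [← add_sum_erase _ _ hu]
    have hc : ((nb G v).erase u).card = deg G v - 1 := by
      rw [card_erase_of_mem hu]; rfl
    rw [nxt_eq]
    unfold SS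
    rw [sum_sub_distrib, sum_add_distrib, sum_const, sum_const, hc]
    have e2 : ∑ y ∈ (nb G v).erase u, wt G r v y = MM G (wt G r) v - wt G r v u := by rw [e]; ring
    rw [e2, wt_symm v u]
    rcases hdeg v with hv | hv
    · rw [hv, MM_two v hv, (wt_two u v hv).1]; norm_num
    · rw [hv]
      simp only [nsmul_eq_mul]
      push_cast
      ring

/-- number of neighbours of degree two -/
noncomputable def dtwo (G : SimpleGraph V) (v : V) : ℝ := ∑ u ∈ nb G v, if deg G u = 2 then 1 else 0

theorem hh_two (v : V) (h : deg G v = 2) : hh G (wt G r) v = 0 := by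
  unfold hh
  apply sum_eq_zero
  intro u _
  apply sum_eq_zero
  intro x _
  unfold SS
  rw [MM_two v h, (wt_two u v h).1, (wt_two x v h).2]
  norm_num

theorem hh_three (hdeg : ∀ v, deg G v = 2 ∨ deg G v = 3) (h1 : 1 < r) (hr : r ^ 3 = r + 2) (v : V) (h : deg G v = 3) :
    Real.log r * MM G (wt G r) v + 2 * 0.448 - (0.448 - Real.log r) * dtwo G v ≤ hh G (wt G r) v := by
  classical
  obtain ⟨a, b, c, hab, hac, hbc, hn⟩ := card_eq_three.1 (show (nb G v).card = 3 from h)
  have eM : MM G (wt G r) v = wt G r v a + wt G r v b + wt G r v c := by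
    unfold MM
    rw [hn, sum_insert (by simp [hab, hac]), sum_insert (by simp [hbc]), sum_singleton]
    ring
  have eD : dtwo G v = (if deg G a = 2 then 1 else 0) + (if deg G b = 2 then 1 else 0) + (if deg G c = 2 then 1 else 0) := by
    unfold dtwo
    rw [hn, sum_insert (by simp [hab, hac]), sum_insert (by simp [hbc]), sum_singleton]
    ring
  have na : nxt G a v = {b, c} := by
    rw [nxt_eq, hn]; ext x; simp only [mem_erase, mem_insert, mem_singleton]
    constructor
    · rintro ⟨h1, h2 | h2⟩
      · exact absurd h2 h1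
      · exact h2
    · rintro (h2 | h2)
      · exact ⟨by rw [h2]; exact hab.symm, Or.inr (Or.inl h2)⟩
      · exact ⟨by rw [h2]; exact hac.symm, Or.inr (Or.inr h2)⟩
  have nbb : nxt G b v = {a, c} := by
    rw [nxt_eq, hn]; ext x; simp only [mem_erase, mem_insert, mem_singleton]
    constructor
    · rintro ⟨h1, h2 | h2 | h2⟩
      · exact Or.inl h2
      · exact absurd h2 h1
      · exact Or.inr h2
    · rintro (h2 | h2)
      · exact ⟨by rw [h2]; exact hab, Or.inl h2⟩
      · exact ⟨by rw [h2]; exact hbc.symm, Or.inr (Or.inr h2)⟩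
  have nc : nxt G c v = {a, b} := by
    rw [nxt_eq, hn]; ext x; simp only [mem_erase, mem_insert, mem_singleton]
    constructor
    · rintro ⟨h1, h2 | h2 | h2⟩
      · exact Or.inl h2
      · exact Or.inr h2
      · exact absurd h2 h1
    · rintro (h2 | h2)
      · exact ⟨by rw [h2]; exact hac, Or.inl h2⟩
      · exact ⟨by rw [h2]; exact hbc, Or.inr (Or.inl h2)⟩
  have eH : hh G (wt G r) v = ff (wt G r v a) (wt G r v b) (wt G r v c) := by
    unfold hh
    rw [hn, sum_insert (by simp [hab, hac]), sum_insert (by simp [hbc]), sum_singleton, na, nbb, nc,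
      sum_pair hbc, sum_pair hac, sum_pair hab]
    unfold SS ff gg
    rw [eM, wt_symm a v, wt_symm b v, wt_symm c v]
    have s1 : wt G r v a + wt G r v b - (wt G r v a + wt G r v b + wt G r v c) / 2 = (wt G r v a + wt G r v b - wt G r v c) / 2 := by ring
    have s2 : wt G r v a + wt G r v c - (wt G r v a + wt G r v b + wt G r v c) / 2 = (wt G r v a + wt G r v c - wt G r v b) / 2 := by ring
    have s3 : wt G r v b + wt G r v a - (wt G r v a + wt G r v b + wt G r v c) / 2 = (wt G r v b + wt G r v a - wt G r v c) / 2 := by ring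
    have s4 : wt G r v b + wt G r v c - (wt G r v a + wt G r v b + wt G r v c) / 2 = (wt G r v b + wt G r v c - wt G r v a) / 2 := by ring
    have s5 : wt G r v c + wt G r v a - (wt G r v a + wt G r v b + wt G r v c) / 2 = (wt G r v c + wt G r v a - wt G r v b) / 2 := by ring
    have s6 : wt G r v c + wt G r v b - (wt G r v a + wt G r v b + wt G r v c) / 2 = (wt G r v c + wt G r v b - wt G r v a) / 2 := by ring
    rw [s1, s2, s3, s4, s5, s6]
    ring
  rw [eM, eD, eH]
  have key : ∀ x, (deg G x = 3 ∧ wt G r v x = alpha r ∧ (if deg G x = 2 then (1:ℝ) else 0) = 0) ∨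
      (deg G x = 2 ∧ wt G r v x = 1 ∧ (if deg G x = 2 then (1:ℝ) else 0) = 1) := by
    intro x
    rcases hdeg x with hx | hx
    · exact Or.inr ⟨hx, (wt_two v x hx).1, by rw [if_pos hx]⟩
    · refine Or.inl ⟨hx, ?_, by rw [if_neg (by omega)]⟩
      unfold wt; rw [if_pos ⟨h, hx⟩]
  have f0 := F0 r h1 hr
  have f1 := F1 r h1 hr
  have f2 := F2 r h1 hr
  have f3 := F3 r h1 hr
  rcases key a with ⟨_, wa, da⟩ | ⟨_, wa, da⟩ <;> rcases key b with ⟨_, wb, db⟩ | ⟨_, wb, db⟩ <;>
    rcases key c with ⟨_, wc, dc⟩ | ⟨_, wc, dc⟩ <;> rw [wa, wb, wc, da, db, dc]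
  · linarith
  · linarith
  · rw [ff_swap' (alpha r) 1 (alpha r)]; linarith
  · linarith
  · rw [ff_swap 1 (alpha r) (alpha r), ff_swap' (alpha r) 1 (alpha r)]; linarith
  · rw [ff_swap 1 (alpha r) 1]; linarith
  · rw [ff_swap' 1 1 (alpha r), ff_swap 1 (alpha r) 1]; linarith
  · linarith

/-- total charge -/
theorem total (hdeg : ∀ v, deg G v = 2 ∨ deg G v = 3) (h1 : 1 < r) (hr : r ^ 3 = r + 2)
    (hbal : (univ.filter (fun v => deg G v = 2)).card = (univ.filter (fun v => deg G v = 3)).card) :
    Real.log r * ∑ v, MM G (wt G r) v ≤ ∑ v, hh G (wt G r) v := by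
  classical
  have hq := log_root r h1 hr
  have hq0 := log_root_pos r h1
  have hv : ∀ v, Real.log r * MM G (wt G r) v + (if deg G v = 3 then 2 * 0.448 else 0) - (0.448 - Real.log r) * (if deg G v = 3 then dtwo G v else 0)
      - (if deg G v = 2 then 2 * Real.log r else 0) ≤ hh G (wt G r) v := by
    intro v
    rcases hdeg v with hv | hv
    · rw [hh_two v hv, MM_two v hv, if_neg (by omega), if_neg (by omega), if_pos hv]
      linarith
    · rw [if_pos hv, if_pos hv, if_neg (by omega)]
      have := hh_three hdeg h1 hr v hv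
      linarith
  have hs := sum_le_sum (s := univ) (fun v _ => hv v)
  rw [sum_sub_distrib, sum_sub_distrib, sum_add_distrib, ← mul_sum, ← mul_sum, ← sum_filter, ← sum_filter, ← sum_filter] at hs
  simp only [sum_const, nsmul_eq_mul] at hs
  rw [hbal] at hs
  have hd : ∑ v ∈ univ.filter (fun v => deg G v = 3), dtwo G v ≤ 2 * ((univ.filter (fun v => deg G v = 3)).card : ℝ) := by
    calc ∑ v ∈ univ.filter (fun v => deg G v = 3), dtwo G v ≤ ∑ v, dtwo G v :=
          sum_le_sum_of_subset_of_nonneg (filter_subset _ _) (fun v _ _ => sum_nonneg (fun u _ => by split_ifs <;> norm_num))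
      _ = ∑ u, ∑ v ∈ nb G u, (if deg G u = 2 then (1:ℝ) else 0) := by
          unfold dtwo
          exact swap_nb (fun u v => if deg G u = 2 then (1:ℝ) else 0)
      _ = ∑ u, (if deg G u = 2 then (2:ℝ) else 0) := by
          apply sum_congr rfl
          intro u _
          rw [sum_const, nsmul_eq_mul]
          split_ifs with h
          · have : (nb G u).card = 2 := h
            rw [this]; norm_num
          · simp
      _ = 2 * ((univ.filter (fun v => deg G v = 3)).card : ℝ) := by
          rw [← sum_filter, sum_const, nsmul_eq_mul, hbal]; ring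
  have hd2 := mul_le_mul_of_nonneg_left hd (show (0:ℝ) ≤ 0.448 - Real.log r by linarith)
  linarith

end Pool.Agent.X145.UC
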