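import Mathlib

/-! Non-backtracking walks in finite graphs and their growth rate. -/

set_option autoImplicit false
set_option linter.unusedSectionVars false
set_option linter.unusedVariables false

namespace Pool.Agent.X145.UC

open Finset Filter Topology

variable {V : Type} [Fintype V]

/-- `w 0, w 1, …, w ℓ` is a non-backtracking walk of length `ℓ` in `G` -/
def IsNB (G : SimpleGraph V) (ℓ : ℕ) (w : Fin (ℓ + 1) → V) : Prop :=
  (∀ i : ℕ, ∀ h : i + 1 < ℓ + 1, G.Adj (w ⟨i, by omega⟩) (w ⟨i + 1, h⟩)) ∧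
  ∀ i : ℕ, ∀ h : i + 2 < ℓ + 1, w ⟨i, by omega⟩ ≠ w ⟨i + 2, h⟩

open Classical in
/-- the set of non-backtracking walks of length `ℓ` -/
noncomputable def walks (G : SimpleGraph V) (ℓ : ℕ) : Finset (Fin (ℓ + 1) → V) := univ.filter (IsNB G ℓ)

/-- their number `|Ω_ℓ|` -/
noncomputable def num (G : SimpleGraph V) (ℓ : ℕ) : ℕ := (walks G ℓ).card

/-- the growth rate `ρ(G) = lim |Ω_ℓ|^{1/ℓ}` -/
noncomputable def rho (G : SimpleGraph V) : ℝ := limUnder atTop (fun ℓ : ℕ => (num G ℓ : ℝ) ^ ((1:ℝ) / ℓ))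

theorem mem_walks (G : SimpleGraph V) (ℓ : ℕ) (w : Fin (ℓ + 1) → V) : w ∈ walks G ℓ ↔ IsNB G ℓ w := by
  unfold walks; simp

/-- submultiplicativity -/
theorem num_add (G : SimpleGraph V) (a b : ℕ) : num G (a + b) ≤ num G a * num G b := by
  classical
  unfold num
  rw [← card_product]
  apply card_le_card_of_injOn (fun w => ((fun i : Fin (a + 1) => w ⟨i, by omega⟩ : Fin (a + 1) → V),
    (fun j : Fin (b + 1) => w ⟨a + j, by omega⟩ : Fin (b + 1) → V)))
  · intro w hw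
    have hw' := (mem_walks _ _ _).1 hw
    simp only [coe_product, Set.mem_prod, mem_coe, mem_walks]
    refine ⟨⟨?_, ?_⟩, ⟨?_, ?_⟩⟩
    · intro i h
      exact hw'.1 i (by omega)
    · intro i h
      exact hw'.2 i (by omega)
    · intro i h
      exact hw'.1 (a + i) (by omega)
    · intro i h
      exact hw'.2 (a + i) (by omega)
  · intro w _ w' _ h
    simp only [Prod.mk.injEq] at h
    funext i
    by_cases hi : (i : ℕ) < a + 1
    · exact congrFun h.1 ⟨i, hi⟩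
    · have := congrFun h.2 ⟨i - a, by omega⟩
      have e : a + ((i : ℕ) - a) = i := by omega
      simp only [e] at this
      exact this

/-- first two vertices `u, v` -/
def IsFrom (G : SimpleGraph V) (ℓ : ℕ) (u v : V) (w : Fin (ℓ + 1 + 1) → V) : Prop :=
  IsNB G (ℓ + 1) w ∧ w ⟨0, by omega⟩ = u ∧ w ⟨1, by omega⟩ = v

open Classical in
/-- walks of length `ℓ + 1` whose first two vertices are `u, v` -/
noncomputable def from2 (G : SimpleGraph V) (ℓ : ℕ) (u v : V) : Finset (Fin (ℓ + 1 + 1) → V) :=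
  univ.filter (IsFrom G ℓ u v)

/-- their number -/
noncomputable def cnt (G : SimpleGraph V) (ℓ : ℕ) (u v : V) : ℕ := (from2 G ℓ u v).card

theorem mem_from2 (G : SimpleGraph V) (ℓ : ℕ) (u v : V) (w : Fin (ℓ + 1 + 1) → V) :
    w ∈ from2 G ℓ u v ↔ IsNB G (ℓ + 1) w ∧ w ⟨0, by omega⟩ = u ∧ w ⟨1, by omega⟩ = v := by
  have : w ∈ from2 G ℓ u v ↔ IsFrom G ℓ u v w := by unfold from2; simp
  exact this

theorem cnt_le_num (G : SimpleGraph V) (ℓ : ℕ) (u v : V) : cnt G ℓ u v ≤ num G (ℓ + 1) :=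
  card_le_card (fun w hw => (mem_walks _ _ _).2 ((mem_from2 _ _ _ _ _).1 hw).1)

theorem num_le_sum (G : SimpleGraph V) (ℓ : ℕ) : num G (ℓ + 1) ≤ ∑ u, ∑ v, cnt G ℓ u v := by
  classical
  have h : walks G (ℓ + 1) ⊆ (univ : Finset V).biUnion (fun u => (univ : Finset V).biUnion (fun v => from2 G ℓ u v)) := by
    intro w hw
    simp only [mem_biUnion, mem_univ, true_and]
    exact ⟨_, _, (mem_from2 G ℓ _ _ w).2 ⟨(mem_walks _ _ _).1 hw, rfl, rfl⟩⟩
  calc num G (ℓ + 1) ≤ _ := card_le_card h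
    _ ≤ ∑ u, ((univ : Finset V).biUnion (fun v => from2 G ℓ u v)).card := card_biUnion_le
    _ ≤ ∑ u, ∑ v, cnt G ℓ u v := sum_le_sum (fun u _ => card_biUnion_le)

theorem cnt_zero (G : SimpleGraph V) (u v : V) (h : G.Adj u v) : cnt G 0 u v = 1 := by
  classical
  unfold cnt
  rw [card_eq_one]
  refine ⟨![u, v], ?_⟩
  ext w
  rw [mem_from2, mem_singleton]
  constructor
  · rintro ⟨_, h1, h2⟩
    funext i
    fin_cases i
    · exact h1
    · exact h2
  · rintro rfl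
    refine ⟨⟨?_, ?_⟩, rfl, rfl⟩
    · intro i hi
      have : i = 0 := by omega
      subst this
      exact h
    · intro i hi
      omega

theorem cnt_nonadj (G : SimpleGraph V) (ℓ : ℕ) (u v : V) (h : ¬ G.Adj u v) : cnt G ℓ u v = 0 := by
  classical
  unfold cnt
  rw [card_eq_zero, eq_empty_iff_forall_notMem]
  intro w hw
  obtain ⟨h1, h2, h3⟩ := (mem_from2 _ _ _ _ _).1 hw
  apply h
  have := h1.1 0 (by omega)
  simp only [zero_add] at this
  rw [h2, h3] at this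
  exact this

theorem cons_mem (G : SimpleGraph V) (ℓ : ℕ) (u v x : V) (huv : G.Adj u v) (hux : u ≠ x) (w : Fin (ℓ + 1 + 1) → V)
    (hw : w ∈ from2 G ℓ v x) : (Fin.cons u w : Fin (ℓ + 1 + 1 + 1) → V) ∈ from2 G (ℓ + 1) u v := by
  obtain ⟨h1, h2, h3⟩ := (mem_from2 _ _ _ _ _).1 hw
  rw [mem_from2]
  have e : ∀ i : ℕ, ∀ h : i + 1 < ℓ + 1 + 1 + 1, (Fin.cons u w : Fin (ℓ + 1 + 1 + 1) → V) ⟨i + 1, h⟩ = w ⟨i, by omega⟩ := by
    intro i h
    exact Fin.cons_succ (α := fun _ => V) u w ⟨i, by omega⟩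
  have e0 : ∀ h : 0 < ℓ + 1 + 1 + 1, (Fin.cons u w : Fin (ℓ + 1 + 1 + 1) → V) ⟨0, h⟩ = u := fun h => rfl
  refine ⟨⟨?_, ?_⟩, e0 _, ?_⟩
  · intro i h
    rcases i with _ | i
    · rw [e0, e 0, h2]; exact huv
    · rw [e i, e (i + 1)]; exact h1.1 i (by omega)
  · intro i h
    rcases i with _ | i
    · rw [e0]
      have : (Fin.cons u w : Fin (ℓ + 1 + 1 + 1) → V) ⟨0 + 2, h⟩ = w ⟨1, by omega⟩ := e 1 (by omega)
      rw [this, h3]; exact hux
    · rw [e i]
      have := e (i + 2) (by omega)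
      have e2 : (i + 1 + 2 : ℕ) = i + 2 + 1 := by ring
      simp only [e2]
      rw [this]
      exact h1.2 i (by omega)
  · rw [← h2]; exact e 0 _

open Classical in
/-- allowed continuations of the dart `(u, v)` -/
noncomputable def nxt (G : SimpleGraph V) (u v : V) : Finset V := univ.filter (fun x => G.Adj v x ∧ u ≠ x)

theorem mem_nxt (G : SimpleGraph V) (u v x : V) : x ∈ nxt G u v ↔ G.Adj v x ∧ u ≠ x := by
  unfold nxt; simp

theorem cnt_succ_ge (G : SimpleGraph V) (ℓ : ℕ) (u v : V) (huv : G.Adj u v) :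
    ∑ x ∈ nxt G u v, cnt G ℓ v x ≤ cnt G (ℓ + 1) u v := by
  classical
  unfold cnt
  rw [← card_sigma]
  apply card_le_card_of_injOn (fun p : (_ : V) × (Fin (ℓ + 1 + 1) → V) => (Fin.cons u p.2 : Fin (ℓ + 1 + 1 + 1) → V))
  · rintro ⟨x, w⟩ hp
    simp only [coe_sigma, Set.mem_sigma_iff, mem_coe] at hp
    exact cons_mem G ℓ u v x huv ((mem_nxt _ _ _ _).1 hp.1).2 w hp.2
  · rintro ⟨x, w⟩ hp ⟨x', w'⟩ hp' h
    simp only [coe_sigma, Set.mem_sigma_iff, mem_coe] at hp hp'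
    have hw : w = w' := by
      have := congrArg (fun f : Fin (ℓ + 1 + 1 + 1) → V => Fin.tail f) h
      simpa using this
    subst hw
    have h1 := ((mem_from2 _ _ _ _ _).1 hp.2).2.2
    have h2 := ((mem_from2 _ _ _ _ _).1 hp'.2).2.2
    rw [h1] at h2
    rw [h2]

theorem cnt_succ_le (G : SimpleGraph V) (ℓ : ℕ) (u v : V) :
    cnt G (ℓ + 1) u v ≤ ∑ x ∈ nxt G u v, cnt G ℓ v x := by
  classical
  unfold cnt
  rw [← card_sigma]
  apply card_le_card_of_injOn (fun w : Fin (ℓ + 1 + 1 + 1) → V => (⟨w ⟨2, by omega⟩, Fin.tail w⟩ : (_ : V) × (Fin (ℓ + 1 + 1) → V)))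
  · intro w hw
    obtain ⟨h1, h2, h3⟩ := (mem_from2 _ _ _ _ _).1 hw
    simp only [coe_sigma, Set.mem_sigma_iff, mem_coe]
    refine ⟨(mem_nxt _ _ _ _).2 ⟨?_, ?_⟩, (mem_from2 _ _ _ _ _).2 ⟨⟨?_, ?_⟩, ?_, ?_⟩⟩
    · rw [← h3]; exact h1.1 1 (by omega)
    · rw [← h2]; exact h1.2 0 (by omega)
    · intro i h
      exact h1.1 (i + 1) (by omega)
    · intro i h
      have := h1.2 (i + 1) (by omega)
      exact this
    · exact h3
    · rfl
  · intro w hw w' hw' h
    obtain ⟨_, h2, _⟩ := (mem_from2 _ _ _ _ _).1 hw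
    obtain ⟨_, h2', _⟩ := (mem_from2 _ _ _ _ _).1 hw'
    have ht : Fin.tail w = Fin.tail w' := by
      simp only [Sigma.mk.injEq, heq_eq_eq] at h
      exact h.2
    funext i
    refine Fin.cases ?_ (fun j => ?_) i
    · have a : w 0 = u := h2
      have b : w' 0 = u := h2'
      rw [a, b]
    · exact congrFun ht j

theorem cnt_pos (G : SimpleGraph V) (hne : ∀ u v, G.Adj u v → (nxt G u v).Nonempty) (ℓ : ℕ) :
    ∀ u v, G.Adj u v → 1 ≤ cnt G ℓ u v := by
  induction ℓ with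
  | zero => intro u v h; rw [cnt_zero G u v h]
  | succ ℓ ih =>
    intro u v h
    obtain ⟨x, hx⟩ := hne u v h
    have h1 := cnt_succ_ge G ℓ u v h
    have h2 := ih v x ((mem_nxt _ _ _ _).1 hx).1
    have h3 : cnt G ℓ v x ≤ ∑ x ∈ nxt G u v, cnt G ℓ v x :=
      single_le_sum (f := fun x => cnt G ℓ v x) (fun _ _ => Nat.zero_le _) hx
    omega

/-- the growth rate exists as a limit -/
theorem rho_tendsto (G : SimpleGraph V) (hpos : ∀ ℓ, 1 ≤ num G ℓ) :
    Tendsto (fun ℓ : ℕ => (num G ℓ : ℝ) ^ ((1:ℝ) / ℓ)) atTop (𝓝 (rho G)) := by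
  have hsub : Subadditive (fun ℓ => Real.log (num G ℓ)) := by
    intro a b
    have ha : (0:ℝ) < num G a := by exact_mod_cast hpos a
    have hb : (0:ℝ) < num G b := by exact_mod_cast hpos b
    rw [← Real.log_mul ha.ne' hb.ne']
    apply Real.log_le_log (by exact_mod_cast hpos (a + b))
    exact_mod_cast num_add G a b
  have hbdd : BddBelow (Set.range fun n : ℕ => Real.log (num G n) / n) := by
    refine ⟨0, ?_⟩
    rintro _ ⟨n, rfl⟩
    exact div_nonneg (Real.log_nonneg (by exact_mod_cast hpos n)) (by positivity)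
  have hlim := hsub.tendsto_lim hbdd
  have hexp := (Real.continuous_exp.tendsto _).comp hlim
  have he : Tendsto (fun ℓ : ℕ => (num G ℓ : ℝ) ^ ((1:ℝ) / ℓ)) atTop (𝓝 (Real.exp hsub.lim)) := by
    refine hexp.congr (fun n => ?_)
    have hn : (0:ℝ) < num G n := by exact_mod_cast hpos n
    simp only [Function.comp]
    rw [Real.rpow_def_of_pos hn]
    congr 1
    ring
  have : rho G = Real.exp hsub.lim := he.limUnder_eq
  rw [this]; exact he

end Pool.Agent.X145.UC
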